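import Pool.Agent.H8.PickMain

set_option autoImplicit false

namespace Pool.Agent.Results.MP_9c1228_co.NonPisot

open Pool.Agent.H8.Pick MeasureTheory Filter Asymptotics

/-- A planar self-affine tiling and a tile `P` for which the Pick-type formula fails,
whatever the value of the constant `Δ`. -/
theorem result : ∃ (𝒯 : Set (Set E2)) (φ : Matrix (Fin 2) (Fin 2) ℝ), IsSelfAffine 𝒯 φ ∧
    (∀ p ∈ vertices 𝒯, ∀ q ∈ vertices 𝒯, p ≠ q → 2 ≤ dist p q) ∧
    ∃ P ∈ 𝒯, ∀ Δ : ℝ,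
      ¬ (fun k : ℕ => pickError (vertices 𝒯) (img (φ ^ k) P) Δ)
        =o[atTop] fun k : ℕ => perimeter (img (φ ^ k) P) :=
  main

end Pool.Agent.Results.MP_9c1228_co.NonPisot
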